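import Mathlib

/-!
# Curse of dimensionality for the `L_1`-discrepancy

The local discrepancy of `N` points takes the values `m / N - P(t)` with a natural number `m` and
`P(t) = t_1 ⋯ t_d`. Hence `|Δ(t)| ≥ P(t)` as soon as `P(t) ≤ 1 / (2 N)`, and therefore, for every
`s > 0`, `|Δ(t)| ≥ P(t) - (2 N)^s P(t)^(1+s)` on the whole cube. Integration gives
`L_1(𝒫) ≥ 2^(-d) (1 - (2 N)^s (1 + s/2)^(-d))`.
-/

set_option autoImplicit false

open MeasureTheory Filter Topology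

namespace Pool.Agent.Results.MP_4b7d36_an.CurseL1

/-- The local discrepancy function `Δ(t) = #{k : x_k ∈ [0,t)} / N - t_1 ⋯ t_d` of the points
`x_1, …, x_N` (repetitions are allowed). For `N = 0` (no points) this is `- t_1 ⋯ t_d`. -/
noncomputable def localDisc {d N : ℕ} (x : Fin N → Fin d → ℝ) (t : Fin d → ℝ) : ℝ :=
  (Nat.card {k : Fin N // ∀ i, x k i ∈ Set.Ico 0 (t i)} : ℝ) / N - ∏ i, t i

/-- The `L_p`-discrepancy `(∫_{[0,1]^d} |Δ(t)|^p dt)^(1/p)`. -/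
noncomputable def lpDisc (p : ℝ) {d N : ℕ} (x : Fin N → Fin d → ℝ) : ℝ :=
  (∫ t in Set.Icc (0 : Fin d → ℝ) 1, |localDisc x t| ^ p) ^ (1 / p)

/-- `disc_p(N,d)`: the infimum of the `L_p`-discrepancies of all systems of `N` points of
`[0,1)^d`. For `N = 0` it is the initial discrepancy, that of the empty set. -/
noncomputable def disc (p : ℝ) (N d : ℕ) : ℝ :=
  sInf {r | ∃ x : Fin N → Fin d → ℝ, (∀ k i, x k i ∈ Set.Ico (0 : ℝ) 1) ∧ r = lpDisc p x}

/-- `N_p^disc(ε,d)`: the least `N ≥ 1` with `disc_p(N,d) ≤ ε disc_p(0,d)` (`∞` if there is no such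
`N`). -/
noncomputable def invDisc (p ε : ℝ) (d : ℕ) : ℕ∞ :=
  sInf {n : ℕ∞ | ∃ N : ℕ, n = N ∧ 1 ≤ N ∧ disc p N d ≤ ε * disc p 0 d}

/-- The `L_p`-discrepancy suffers from the curse of dimensionality: there are `C > 1` and
`ε₀ ∈ (0,1)` such that for infinitely many `d` one has `N_p^disc(ε,d) ≥ C^d` for all
`ε ∈ (0,ε₀)`. -/
def SuffersCurse (p : ℝ) : Prop :=
  ∃ C : ℝ, 1 < C ∧ ∃ ε₀ ∈ Set.Ioo (0 : ℝ) 1,
    {d : ℕ | ∀ ε ∈ Set.Ioo (0 : ℝ) ε₀,
      ENNReal.ofReal (C ^ d) ≤ (invDisc p ε d : ENNReal)}.Infinite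

section aux

variable {d N : ℕ}

lemma icc_eq_pi (d : ℕ) : Set.Icc (0 : Fin d → ℝ) 1 = Set.univ.pi fun _ => Set.Icc (0 : ℝ) 1 := by
  rw [Set.pi_univ_Icc]
  rfl

/-- The measure on the cube. -/
noncomputable abbrev mu (d : ℕ) : Measure (Fin d → ℝ) :=
  Measure.pi fun _ : Fin d => (volume : Measure ℝ).restrict (Set.Icc 0 1)

lemma restrict_eq (d : ℕ) :
    (volume : Measure (Fin d → ℝ)).restrict (Set.Icc 0 1) = mu d := by
  rw [icc_eq_pi, volume_pi, Measure.restrict_pi_pi]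

lemma int_rpow_unit {r : ℝ} (hr : 0 ≤ r) :
    ∫ u in Set.Icc (0 : ℝ) 1, u ^ r = 1 / (r + 1) := by
  rw [integral_Icc_eq_integral_Ioc, ← intervalIntegral.integral_of_le zero_le_one,
    integral_rpow (Or.inl (by linarith))]
  rw [Real.one_rpow, Real.zero_rpow (by linarith)]
  simp

lemma int_prod_rpow {r : ℝ} (hr : 0 ≤ r) :
    ∫ t : Fin d → ℝ, (∏ i, (t i) ^ r) ∂(mu d) = (1 / (r + 1)) ^ d := by
  rw [integral_fintype_prod_eq_prod (fun (_ : Fin d) (u : ℝ) => u ^ r)]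
  rw [int_rpow_unit hr]
  simp

lemma integrable_rpow_unit {r : ℝ} (hr : 0 ≤ r) :
    Integrable (fun u : ℝ => u ^ r) ((volume : Measure ℝ).restrict (Set.Icc 0 1)) := by
  have h : ContinuousOn (fun u : ℝ => u ^ r) (Set.Icc 0 1) :=
    (Real.continuous_rpow_const hr).continuousOn
  exact h.integrableOn_compact isCompact_Icc

lemma integrable_prod_rpow {r : ℝ} (hr : 0 ≤ r) :
    Integrable (fun t : Fin d → ℝ => ∏ i, (t i) ^ r) (mu d) :=
  Integrable.fintype_prod (f := fun (_ : Fin d) (u : ℝ) => u ^ r) fun _ => integrable_rpow_unit hr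

lemma card_eq_sum (x : Fin N → Fin d → ℝ) (t : Fin d → ℝ) :
    (Nat.card {k : Fin N // ∀ i, x k i ∈ Set.Ico 0 (t i)} : ℝ) =
      ∑ k : Fin N, {t : Fin d → ℝ | ∀ i, x k i ∈ Set.Ico 0 (t i)}.indicator (fun _ => (1 : ℝ)) t := by
  classical
  rw [Nat.card_eq_fintype_card, Fintype.card_subtype, Finset.card_filter]
  push_cast
  refine Finset.sum_congr rfl fun k _ => ?_
  simp only [Set.indicator, Set.mem_ofPred_eq]

lemma measurableSet_box (y : Fin d → ℝ) :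
    MeasurableSet {t : Fin d → ℝ | ∀ i, y i ∈ Set.Ico 0 (t i)} := by
  have : {t : Fin d → ℝ | ∀ i, y i ∈ Set.Ico 0 (t i)} =
      ⋂ i, {t : Fin d → ℝ | y i ∈ Set.Ico 0 (t i)} := by
    ext t; simp
  rw [this]
  refine MeasurableSet.iInter fun i => ?_
  by_cases h : 0 ≤ y i
  · have h2 : {t : Fin d → ℝ | y i ∈ Set.Ico 0 (t i)} = (fun t : Fin d → ℝ => t i) ⁻¹' Set.Ioi (y i) := by
      ext t; simp [h]
    rw [h2]
    exact (measurable_pi_apply i) measurableSet_Ioi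
  · have h2 : {t : Fin d → ℝ | y i ∈ Set.Ico 0 (t i)} = ∅ := by
      ext t
      simp only [Set.mem_ofPred_eq, Set.mem_Ico, Set.mem_empty_iff_false, iff_false, not_and]
      intro h3
      exact absurd h3 h
    rw [h2]
    exact MeasurableSet.empty

lemma measurable_localDisc (x : Fin N → Fin d → ℝ) : Measurable (localDisc x) := by
  have h : localDisc x = fun t => (∑ k : Fin N,
      {t : Fin d → ℝ | ∀ i, x k i ∈ Set.Ico 0 (t i)}.indicator (fun _ => (1 : ℝ)) t) / N -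
        ∏ i, t i := by
    funext t
    rw [localDisc, card_eq_sum]
  rw [h]
  refine Measurable.sub (Measurable.div_const ?_ _) ?_
  · exact Finset.measurable_sum _ fun k _ => measurable_const.indicator (measurableSet_box (x k))
  · exact Finset.measurable_prod _ fun i _ => measurable_pi_apply i

lemma ae_mem (d : ℕ) : ∀ᵐ t ∂(mu d), t ∈ Set.Icc (0 : Fin d → ℝ) 1 := by
  rw [← restrict_eq]
  exact ae_restrict_mem measurableSet_Icc

lemma prod_mem {t : Fin d → ℝ} (ht : t ∈ Set.Icc (0 : Fin d → ℝ) 1) :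
    0 ≤ ∏ i, t i ∧ ∏ i, t i ≤ 1 :=
  ⟨Finset.prod_nonneg fun i _ => ht.1 i, Finset.prod_le_one (fun i _ => ht.1 i) fun i _ => ht.2 i⟩

lemma card_le (x : Fin N → Fin d → ℝ) (t : Fin d → ℝ) :
    Nat.card {k : Fin N // ∀ i, x k i ∈ Set.Ico 0 (t i)} ≤ N := by
  have := Nat.card_le_card_of_injective
    (Subtype.val : {k : Fin N // ∀ i, x k i ∈ Set.Ico 0 (t i)} → Fin N) Subtype.val_injective
  simpa using this

lemma abs_localDisc_le (x : Fin N → Fin d → ℝ) {t : Fin d → ℝ}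
    (ht : t ∈ Set.Icc (0 : Fin d → ℝ) 1) : |localDisc x t| ≤ 1 := by
  obtain ⟨h0, h1⟩ := prod_mem ht
  have hc := card_le x t
  have h2 : (Nat.card {k : Fin N // ∀ i, x k i ∈ Set.Ico 0 (t i)} : ℝ) / N ≤ 1 := by
    apply div_le_one_of_le₀ _ (Nat.cast_nonneg _)
    exact_mod_cast hc
  have h3 : 0 ≤ (Nat.card {k : Fin N // ∀ i, x k i ∈ Set.Ico 0 (t i)} : ℝ) / N := by positivity
  rw [localDisc, abs_le]
  constructor <;> linarith

lemma integrable_abs (x : Fin N → Fin d → ℝ) : Integrable (fun t => |localDisc x t|) (mu d) := by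
  refine Integrable.of_bound ((measurable_localDisc x).norm.aestronglyMeasurable) 1 ?_
  filter_upwards [ae_mem d] with t ht
  simpa using abs_localDisc_le x ht

/-- The pointwise bound. -/
lemma pointwise {m N : ℕ} (hN : 1 ≤ N) {P s : ℝ} (hP : 0 ≤ P) (hs : 0 < s) :
    P - (2 * N) ^ s * P ^ (1 + s) ≤ |(m : ℝ) / N - P| := by
  have hN' : (0 : ℝ) < N := by exact_mod_cast hN
  rcases hP.eq_or_lt with rfl | hP
  · rw [Real.zero_rpow (by linarith)]
    simp only [mul_zero, sub_zero]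
    exact abs_nonneg _
  have h1 : (2 * (N : ℝ)) ^ s * P ^ (1 + s) = P * (2 * N * P) ^ s := by
    rw [Real.rpow_add hP, Real.rpow_one, Real.mul_rpow (by positivity) hP.le]
    ring
  rw [h1]
  by_cases h2 : 2 * N * P ≤ 1
  · have h3 : P ≤ |(m : ℝ) / N - P| := by
      rcases Nat.eq_zero_or_pos m with rfl | hm
      · simp only [Nat.cast_zero, zero_div, zero_sub, abs_neg]
        exact le_abs_self P
      · have h4 : 1 / (N : ℝ) ≤ (m : ℝ) / N := by
          have : (1 : ℝ) ≤ m := by exact_mod_cast hm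
          gcongr
        have h5 : 2 * P ≤ 1 / (N : ℝ) := by
          rw [le_div_iff₀ hN']
          linarith
        refine le_trans ?_ (le_abs_self _)
        linarith
    have h6 : 0 ≤ P * (2 * N * P) ^ s := by positivity
    linarith
  · push Not at h2
    have h3 : 1 ≤ (2 * N * P) ^ s := Real.one_le_rpow h2.le hs.le
    have h4 : P ≤ P * (2 * N * P) ^ s := le_mul_of_one_le_right hP.le h3
    have := abs_nonneg ((m : ℝ) / N - P)
    linarith

lemma lpDisc_one (x : Fin N → Fin d → ℝ) : lpDisc 1 x = ∫ t, |localDisc x t| ∂(mu d) := by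
  rw [lpDisc, restrict_eq]
  simp

/-- The lower bound for the `L_1`-discrepancy of `N` points. -/
theorem lower_bound (hN : 1 ≤ N) (x : Fin N → Fin d → ℝ) {s : ℝ} (hs : 0 < s) :
    (1 / 2 : ℝ) ^ d - (2 * N) ^ s * (1 / (2 + s)) ^ d ≤ lpDisc 1 x := by
  have e1 : ∫ t : Fin d → ℝ, (∏ i, (t i) ^ (1 : ℝ)) ∂(mu d) = (1 / 2 : ℝ) ^ d := by
    rw [int_prod_rpow zero_le_one]
    norm_num
  have e2 : ∫ t : Fin d → ℝ, (∏ i, (t i) ^ (1 + s)) ∂(mu d) = (1 / (2 + s)) ^ d := by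
    rw [int_prod_rpow (by linarith)]
    congr 2
    ring
  have i1 : Integrable (fun t : Fin d → ℝ => ∏ i, (t i) ^ (1 : ℝ)) (mu d) :=
    integrable_prod_rpow zero_le_one
  have i2 : Integrable (fun t : Fin d → ℝ => ∏ i, (t i) ^ (1 + s)) (mu d) :=
    integrable_prod_rpow (by linarith)
  rw [lpDisc_one, ← e1, ← e2, ← integral_const_mul, ← integral_sub i1 (i2.const_mul _)]
  refine integral_mono_ae (i1.sub (i2.const_mul _)) (integrable_abs x) ?_
  filter_upwards [ae_mem d] with t ht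
  have h1 : ∏ i, (t i) ^ (1 : ℝ) = ∏ i, t i := Finset.prod_congr rfl fun i _ => Real.rpow_one _
  have h2 : ∏ i, (t i) ^ (1 + s) = (∏ i, t i) ^ (1 + s) :=
    Real.finsetProd_rpow _ _ (fun i _ => ht.1 i) _
  simp only [h1, h2]
  exact pointwise hN (prod_mem ht).1 hs

lemma disc_zero (d : ℕ) : disc 1 0 d = (1 / 2 : ℝ) ^ d := by
  have h : ∀ x : Fin 0 → Fin d → ℝ, lpDisc 1 x = (1 / 2 : ℝ) ^ d := by
    intro x
    rw [lpDisc_one]
    have e1 : ∫ t : Fin d → ℝ, (∏ i, (t i) ^ (1 : ℝ)) ∂(mu d) = (1 / 2 : ℝ) ^ d := by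
      rw [int_prod_rpow zero_le_one]
      norm_num
    rw [← e1]
    refine integral_congr_ae ?_
    filter_upwards [ae_mem d] with t ht
    rw [localDisc]
    simp only [Nat.card_eq_fintype_card, Fintype.card_eq_zero, Nat.cast_zero, div_zero, zero_sub,
      abs_neg, Real.rpow_one]
    exact abs_of_nonneg (prod_mem ht).1
  have h2 : {r | ∃ x : Fin 0 → Fin d → ℝ, (∀ k i, x k i ∈ Set.Ico (0 : ℝ) 1) ∧ r = lpDisc 1 x} =
      {(1 / 2 : ℝ) ^ d} := by
    ext r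
    constructor
    · rintro ⟨x, -, rfl⟩
      exact h x
    · rintro rfl
      exact ⟨fun k => k.elim0, fun k => k.elim0, (h _).symm⟩
  rw [disc, h2, csInf_singleton]

lemma le_disc (hN : 1 ≤ N) {s : ℝ} (hs : 0 < s) :
    (1 / 2 : ℝ) ^ d - (2 * N) ^ s * (1 / (2 + s)) ^ d ≤ disc 1 N d := by
  refine le_csInf ⟨_, fun _ _ => 0, fun _ _ => by simp, rfl⟩ ?_
  rintro r ⟨x, -, rfl⟩
  exact lower_bound hN x hs

/-- The number of points needed to reduce the initial discrepancy by the factor `ε`. -/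
lemma points_needed (hN : 1 ≤ N) {s ε : ℝ} (hs : 0 < s) (h : disc 1 N d ≤ ε * disc 1 0 d) :
    (1 - ε) * (1 + s / 2) ^ d ≤ (2 * N) ^ s := by
  have h1 := le_disc (d := d) hN hs
  rw [disc_zero] at h
  have h2 : (1 - ε) * (1 / 2 : ℝ) ^ d ≤ (2 * N) ^ s * (1 / (2 + s)) ^ d := by linarith
  have h3 : (0 : ℝ) < (2 + s) ^ d := by positivity
  have h4 := mul_le_mul_of_nonneg_right h2 h3.le
  have h5 : (2 * (N : ℝ)) ^ s * (1 / (2 + s)) ^ d * (2 + s) ^ d = (2 * N) ^ s := by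
    rw [mul_assoc, ← mul_pow, one_div, inv_mul_cancel₀ (by linarith), one_pow, mul_one]
  have h6 : (1 - ε) * (1 / 2 : ℝ) ^ d * (2 + s) ^ d = (1 - ε) * (1 + s / 2) ^ d := by
    rw [mul_assoc, ← mul_pow]
    congr 2
    ring
  rw [h5, h6] at h4
  exact h4

lemma exists_exponent {C : ℝ} (hC0 : 0 < C) (hC : C < Real.exp (1 / 2)) :
    ∃ s : ℝ, 0 < s ∧ C ^ s < 1 + s / 2 := by
  -- `log C < 1/2`, and `log (1 + s/2) ≥ s/2 / (1 + s/2)`
  have hl : Real.log C < 1 / 2 := by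
    rw [Real.log_lt_iff_lt_exp hC0]
    exact hC
  by_cases h0 : Real.log C ≤ 0
  · refine ⟨1, one_pos, ?_⟩
    have h1 : C ≤ 1 := (Real.log_nonpos_iff hC0.le).1 h0
    rw [Real.rpow_one]
    linarith
  · push Not at h0
    -- choose `s` with `log C * (1 + s/2) < 1/2`
    refine ⟨(1 / 2 - Real.log C) / Real.log C, div_pos (by linarith) h0, ?_⟩
    set s := (1 / 2 - Real.log C) / Real.log C with hs
    have hs0 : 0 < s := div_pos (by linarith) h0
    have h1 : 0 < 1 + s / 2 := by linarith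
    rw [← Real.log_lt_log_iff (Real.rpow_pos_of_pos hC0 s) h1, Real.log_rpow hC0]
    have h2 : 1 - (1 + s / 2)⁻¹ ≤ Real.log (1 + s / 2) := Real.one_sub_inv_le_log_of_pos h1
    refine lt_of_lt_of_le ?_ h2
    have h3 : 1 - (1 + s / 2)⁻¹ = s / 2 / (1 + s / 2) := by
      field_simp
      ring
    rw [h3, lt_div_iff₀ h1]
    have h4 : Real.log C * s = 1 / 2 - Real.log C := by
      rw [hs]; field_simp
    have h5 : Real.log C * (1 + s / 2) < 1 / 2 := by
      have : Real.log C * (1 + s / 2) = Real.log C + (Real.log C * s) / 2 := by ring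
      rw [this, h4]
      linarith
    calc s * Real.log C * (1 + s / 2) = s * (Real.log C * (1 + s / 2)) := by ring
      _ < s * (1 / 2) := by gcongr
      _ = s / 2 := by ring

/-- For `C < √e` and `ε₀ < 1`, eventually `C^d ≤ N` whenever `N` points reduce the initial
discrepancy by a factor at most `ε₀`. -/
lemma eventually_points {C : ℝ} (hC0 : 0 < C) (hC : C < Real.exp (1 / 2)) {ε₀ : ℝ} (hε : ε₀ < 1) :
    ∀ᶠ d : ℕ in atTop, ∀ N : ℕ, 1 ≤ N → ∀ ε : ℝ, ε ≤ ε₀ → disc 1 N d ≤ ε * disc 1 0 d →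
      C ^ d ≤ (N : ℝ) := by
  obtain ⟨s, hs, hCs⟩ := exists_exponent hC0 hC
  have hq : 1 < (1 + s / 2) / C ^ s := by
    rw [one_lt_div (Real.rpow_pos_of_pos hC0 s)]
    exact hCs
  have ht : Tendsto (fun d : ℕ => ((1 + s / 2) / C ^ s) ^ d) atTop atTop :=
    tendsto_pow_atTop_atTop_of_one_lt hq
  have hev := ht.eventually_ge_atTop ((2 : ℝ) ^ s / (1 - ε₀))
  filter_upwards [hev] with d hd N hN ε hεε h
  have h1 := points_needed (d := d) hN hs h
  have hε1 : 0 < 1 - ε₀ := by linarith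
  by_contra hlt
  push Not at hlt
  have hN' : (0 : ℝ) < N := by exact_mod_cast hN
  have h2 : (2 * (N : ℝ)) ^ s < (2 * C ^ d) ^ s :=
    Real.rpow_lt_rpow (by positivity) (by linarith) hs
  have h3 : (2 * C ^ d) ^ s = 2 ^ s * (C ^ s) ^ d := by
    rw [Real.mul_rpow (by norm_num) (by positivity), ← Real.rpow_natCast C d,
      ← Real.rpow_mul hC0.le, mul_comm (d : ℝ) s, Real.rpow_mul hC0.le, Real.rpow_natCast]
  have h4 : (1 - ε₀) * (1 + s / 2) ^ d ≤ (1 - ε) * (1 + s / 2) ^ d := by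
    gcongr
  rw [div_pow, div_le_iff₀ hε1, div_mul_eq_mul_div, le_div_iff₀ (by positivity)] at hd
  have h5 : (1 - ε₀) * (1 + s / 2) ^ d < 2 ^ s * (C ^ s) ^ d := by
    rw [← h3]
    linarith
  linarith

lemma le_invDisc {C ε : ℝ}
    (h : ∀ N : ℕ, 1 ≤ N → disc 1 N d ≤ ε * disc 1 0 d → C ^ d ≤ (N : ℝ)) :
    ENNReal.ofReal (C ^ d) ≤ (invDisc 1 ε d : ENNReal) := by
  by_cases he : {n : ℕ∞ | ∃ N : ℕ, n = N ∧ 1 ≤ N ∧ disc 1 N d ≤ ε * disc 1 0 d}.Nonempty
  · have hm := csInf_mem he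
    obtain ⟨N, hN1, hN2, hN3⟩ := hm
    rw [invDisc, hN1]
    have := h N hN2 hN3
    simp only [ENat.toENNReal_coe]
    rw [← ENNReal.ofReal_natCast]
    exact ENNReal.ofReal_le_ofReal this
  · rw [Set.not_nonempty_iff_eq_empty] at he
    rw [invDisc, he, sInf_empty]
    simp

end aux

/-- **The `L_1`-discrepancy suffers from the curse of dimensionality.** Moreover, for every
`C < √e` and every `ε₀ < 1` one has `N_1^disc(ε,d) ≥ C^d` for all sufficiently large `d` and all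
`ε ≤ ε₀`, and the `L_1`-discrepancy of any `N ≥ 1` points of the cube is, for every `s > 0`, at
least `2^(-d) - (2 N)^s (2 + s)^(-d)`, where `2^(-d)` is the initial discrepancy. -/
theorem result : SuffersCurse 1 ∧
    (∀ C : ℝ, 0 < C → C < Real.exp (1 / 2) → ∀ ε₀ : ℝ, ε₀ < 1 → ∀ᶠ d : ℕ in atTop,
      ∀ ε : ℝ, ε ≤ ε₀ → ENNReal.ofReal (C ^ d) ≤ (invDisc 1 ε d : ENNReal)) ∧
    ∀ d N : ℕ, 1 ≤ N → ∀ x : Fin N → Fin d → ℝ, ∀ s : ℝ, 0 < s →
      disc 1 0 d = (1 / 2 : ℝ) ^ d ∧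
        (1 / 2 : ℝ) ^ d - (2 * N) ^ s * (1 / (2 + s)) ^ d ≤ lpDisc 1 x := by
  have key : ∀ C : ℝ, 0 < C → C < Real.exp (1 / 2) → ∀ ε₀ : ℝ, ε₀ < 1 → ∀ᶠ d : ℕ in atTop,
      ∀ ε : ℝ, ε ≤ ε₀ → ENNReal.ofReal (C ^ d) ≤ (invDisc 1 ε d : ENNReal) := by
    intro C hC0 hC ε₀ hε
    filter_upwards [eventually_points hC0 hC hε] with d hd ε hεε
    exact le_invDisc fun N hN h => hd N hN ε hεε h
  refine ⟨?_, key, fun d N hN x s hs => ⟨disc_zero d, lower_bound hN x hs⟩⟩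
  have hC : (5 / 4 : ℝ) < Real.exp (1 / 2) := by
    have := Real.add_one_le_exp (1 / 2 : ℝ)
    linarith
  refine ⟨5 / 4, by norm_num, 1 / 2, ⟨by norm_num, by norm_num⟩, ?_⟩
  obtain ⟨d₀, hd₀⟩ := eventually_atTop.1 (key (5 / 4) (by norm_num) hC (1 / 2) (by norm_num))
  refine Set.infinite_of_forall_exists_gt fun a => ⟨max d₀ (a + 1), ?_, ?_⟩
  · intro ε hε
    exact hd₀ _ (le_max_left _ _) ε hε.2.le
  · exact lt_of_lt_of_le (Nat.lt_succ_self a) (le_max_right _ _)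

end Pool.Agent.Results.MP_4b7d36_an.CurseL1
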